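import Pool.Agent.H645R3.LMmul
import Pool.Agent.H645R3.Heis

/-!
# Tightness and character of central subgroups of locally minimal groups

Every closed central subgroup `Z` of a locally minimal group `G` is locally minimal, the tightness of
`Z` is equal to its character, and the character of `G` is at most the maximum of the tightness of `Z`
and of the character of `G ⧸ Z`. In particular the centre of a locally minimal group is metrizable as
soon as it has countable tightness, and then `G` itself is metrizable if `G ⧸ Z(G)` is first countable.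
By induction the tightness of every totally minimal nilpotent group is equal to its character. The case
of abelian groups `G = Z(G)` answers the question; the example of a minimal group, nilpotent of class
two, of countable tightness, which is not sequential, shows that the condition on `G ⧸ Z(G)` cannot be
omitted and that total minimality cannot be replaced by minimality.

The character of abelian locally minimal groups (`H645.char_le_mul`) and the example (`H645.Heis`) are
those of the earlier file `CountableTightness`.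
-/

set_option autoImplicit false

open Filter Topology Pointwise Cardinal

namespace Pool.Agent.Results.MP_335999_gt.CentralSubgroups

/-- `G` is locally minimal: some neighbourhood `V` of the identity is such that every Hausdorff
group topology on `G` coarser than the given one in which `V` is still a neighbourhood of the
identity equals the given topology. -/
def LocallyMinimal (G : Type) [Group G] [τ : TopologicalSpace G] : Prop :=
  ∃ V ∈ 𝓝 (1 : G), ∀ σ : TopologicalSpace G,
    @IsTopologicalGroup G σ _ → @T2Space G σ → τ ≤ σ → V ∈ @nhds G σ 1 → σ = τ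

/-- `G` is minimal: no strictly coarser Hausdorff group topology. -/
def Minimal (G : Type) [Group G] [τ : TopologicalSpace G] : Prop :=
  ∀ σ : TopologicalSpace G, @IsTopologicalGroup G σ _ → @T2Space G σ → τ ≤ σ → σ = τ

/-- `G` is totally minimal: every continuous homomorphism from `G` onto a Hausdorff topological
group is open. -/
def TotallyMinimal (G : Type) [Group G] [TopologicalSpace G] : Prop :=
  ∀ (H : Type) [Group H] [TopologicalSpace H] [IsTopologicalGroup H] [T2Space H] (f : G →* H),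
    Continuous f → Function.Surjective f → IsOpenMap f

/-- the tightness of `X` is at most `κ` -/
def TightLe (κ : Cardinal.{0}) (X : Type) [TopologicalSpace X] : Prop :=
  ∀ A : Set X, ∀ x ∈ closure A, ∃ B ⊆ A, #B ≤ κ ∧ x ∈ closure B

/-- the character of `X` at the point `x` is at most `κ`: there is a neighbourhood base of `x` which
consists of at most `κ` sets -/
def CharLe (κ : Cardinal.{0}) {X : Type} [TopologicalSpace X] (x : X) : Prop :=
  ∃ 𝓑 : Set (Set X), (𝓝 x).HasBasis (fun s => s ∈ 𝓑) id ∧ #𝓑 ≤ κ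

theorem le_of_one {G : Type} [Group G] (τ ρ : TopologicalSpace G)
    (h1 : @IsTopologicalGroup G τ _) (h2 : @IsTopologicalGroup G ρ _)
    (h : @nhds G τ 1 ≤ @nhds G ρ 1) : τ ≤ ρ := by
  refine le_of_nhds_le_nhds fun x => ?_
  have e1 : Filter.map (fun y => x * y) (@nhds G τ 1) = @nhds G τ x :=
    @map_mul_left_nhds_one G τ _ _ x
  have e2 : Filter.map (fun y => x * y) (@nhds G ρ 1) = @nhds G ρ x :=
    @map_mul_left_nhds_one G ρ _ _ x
  rw [← e1, ← e2]
  exact Filter.map_mono h

theorem facts {Z : Type} [Group Z] [TopologicalSpace Z] [IsTopologicalGroup Z] [T2Space Z] :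
    (∀ A ∈ 𝓝 (1 : Z), ∃ A' ∈ 𝓝 (1 : Z), A' * A' ⊆ A) ∧ (∀ A ∈ 𝓝 (1 : Z), A⁻¹ ∈ 𝓝 (1 : Z)) ∧
      ∀ x : Z, x ≠ 1 → ∃ A ∈ 𝓝 (1 : Z), x ∉ A * A := by
  have h1 : ∀ A ∈ 𝓝 (1 : Z), ∃ A' ∈ 𝓝 (1 : Z), A' * A' ⊆ A := by
    intro A hA
    obtain ⟨V, hV, h1, h2⟩ := exists_open_nhds_one_mul_subset hA
    exact ⟨V, hV.mem_nhds h1, h2⟩
  refine ⟨h1, fun A hA => by simpa using inv_mem_nhds_one Z hA, ?_⟩
  intro x hx
  obtain ⟨A, hA, hA2⟩ := h1 {x}ᶜ (isOpen_compl_singleton.mem_nhds hx.symm)
  exact ⟨A, hA, fun h => hA2 h rfl⟩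

theorem locMin_central {G : Type} [Group G] [τ : TopologicalSpace G] [IsTopologicalGroup G]
    [T2Space G] (h : LocallyMinimal G) (Z : Subgroup G) (hc : IsClosed (Z : Set G))
    (hz : ∀ z ∈ Z, ∀ g : G, g * z = z * g) : LocallyMinimal Z := by
  classical
  obtain ⟨V, hV, hmin⟩ := h
  obtain ⟨W, hW, hW1, hWV⟩ := exists_open_nhds_one_mul_subset hV
  refine ⟨Subtype.val ⁻¹' W, (hW.preimage continuous_subtype_val).mem_nhds hW1,
    fun σ hσ hσ2 hle hWσ => ?_⟩
  obtain ⟨f1, f2, f3⟩ := @facts Z _ σ hσ hσ2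
  obtain ⟨g1, g2, -⟩ := @facts G _ τ _ _
  have hone : ∀ A ∈ @nhds Z σ 1, (1 : Z) ∈ A := fun A hA => @mem_of_mem_nhds Z σ 1 A hA
  let Bas : GroupFilterBasis G :=
    { sets := {S | ∃ U ∈ 𝓝 (1 : G), ∃ A ∈ @nhds Z σ 1, S = U * (Subtype.val '' A)}
      nonempty := ⟨_, Set.univ, univ_mem, Set.univ, univ_mem, rfl⟩
      inter_sets := by
        rintro _ _ ⟨U, hU, A, hA, rfl⟩ ⟨U', hU', A', hA', rfl⟩
        refine ⟨_, ⟨U ∩ U', inter_mem hU hU', A ∩ A', inter_mem hA hA', rfl⟩, ?_⟩
        refine Set.subset_inter ?_ ?_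
        · exact Set.mul_subset_mul Set.inter_subset_left (Set.image_mono Set.inter_subset_left)
        · exact Set.mul_subset_mul Set.inter_subset_right (Set.image_mono Set.inter_subset_right)
      one' := by
        rintro _ ⟨U, hU, A, hA, rfl⟩
        exact ⟨1, mem_of_mem_nhds hU, 1, ⟨1, hone A hA, rfl⟩, one_mul 1⟩
      mul' := by
        rintro _ ⟨U, hU, A, hA, rfl⟩
        obtain ⟨U', hU', h1⟩ := g1 U hU
        obtain ⟨A', hA', h2⟩ := f1 A hA
        refine ⟨_, ⟨U', hU', A', hA', rfl⟩, ?_⟩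
        rintro _ ⟨_, ⟨u, hu, _, ⟨a, ha, rfl⟩, rfl⟩, _, ⟨u', hu', _, ⟨a', ha', rfl⟩, rfl⟩, rfl⟩
        refine ⟨u * u', h1 ⟨u, hu, u', hu', rfl⟩, _, ⟨a * a', h2 ⟨a, ha, a', ha', rfl⟩, rfl⟩, ?_⟩
        change u * u' * ((a : G) * a') = u * a * (u' * a')
        have h3 := hz a a.2 u'
        calc u * u' * ((a : G) * a') = u * (u' * a) * a' := by group
          _ = u * (a * u') * a' := by rw [h3]
          _ = u * a * (u' * a') := by group
      inv' := by
        rintro _ ⟨U, hU, A, hA, rfl⟩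
        refine ⟨_, ⟨U⁻¹, g2 U hU, A⁻¹, f2 A hA, rfl⟩, ?_⟩
        rintro _ ⟨u, hu, _, ⟨a, ha, rfl⟩, rfl⟩
        refine ⟨u⁻¹, hu, _, ⟨a⁻¹, ha, rfl⟩, ?_⟩
        change u⁻¹ * (a⁻¹ : Z) = (u * a)⁻¹
        have h3 := hz (a⁻¹ : Z) (a⁻¹).2 u⁻¹
        rw [h3]
        simp
      conj' := by
        rintro x0 _ ⟨U, hU, A, hA, rfl⟩
        have h1 : (fun x => x0 * x * x0⁻¹) ⁻¹' U ∈ 𝓝 (1 : G) := by
          have h2 : Tendsto (fun x => x0 * x * x0⁻¹) (𝓝 (1 : G)) (𝓝 1) := by
            have h3 : Continuous fun x : G => x0 * x * x0⁻¹ := by fun_prop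
            have h4 := h3.tendsto 1
            simpa using h4
          exact h2 hU
        refine ⟨_, ⟨_, h1, A, hA, rfl⟩, ?_⟩
        rintro _ ⟨u, hu, _, ⟨a, ha, rfl⟩, rfl⟩
        refine ⟨x0 * u * x0⁻¹, hu, _, ⟨a, ha, rfl⟩, ?_⟩
        change x0 * u * x0⁻¹ * a = x0 * (u * a) * x0⁻¹
        have h3 := hz a a.2 x0⁻¹
        rw [mul_assoc (x0 * u), h3]
        group }
  have hWn : W ∈ 𝓝 (1 : G) := hW.mem_nhds hW1
  have hopen : ∀ x : G, x ∉ Z → {u : G | u⁻¹ * x ∉ Z} ∈ 𝓝 (1 : G) := by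
    intro x hxZ
    have h1 : IsOpen {u : G | u⁻¹ * x ∉ Z} := by
      have h2 : Continuous fun u : G => u⁻¹ * x := by fun_prop
      exact hc.isOpen_compl.preimage h2
    exact h1.mem_nhds (by simpa using hxZ)
  have hsub : @nhds Z instTopologicalSpaceSubtype 1 = Filter.comap Subtype.val (@nhds G τ 1) :=
    @nhds_induced _ _ τ Subtype.val (1 : Z)
  let ρ : TopologicalSpace G := Bas.topology
  have hρ : @IsTopologicalGroup G ρ _ := Bas.isTopologicalGroup
  have hb : (@nhds G ρ 1).HasBasis (fun S => S ∈ Bas) id := Bas.nhds_one_hasBasis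
  have hmem : ∀ {S : Set G}, S ∈ Bas ↔
      ∃ U ∈ @nhds G τ 1, ∃ A ∈ @nhds Z σ 1, S = U * (Subtype.val '' A) := Iff.rfl
  have hle1 : τ ≤ ρ := by
    refine le_of_one τ ρ inferInstance hρ ?_
    intro S hS
    obtain ⟨T, hT, hTS⟩ := hb.mem_iff.1 hS
    obtain ⟨U, hU, A, hA, rfl⟩ := hmem.1 hT
    refine mem_of_superset hU fun u hu => hTS ⟨u, hu, 1, ⟨1, hone A hA, rfl⟩, mul_one u⟩
  have hT2 : @T2Space G ρ := by
    refine @IsTopologicalGroup.t2Space_of_one_sep G ρ _ hρ ?_
    intro x hx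
    by_cases hxZ : x ∈ Z
    · obtain ⟨A, hA, hxA⟩ := f3 ⟨x, hxZ⟩ fun h => hx (congrArg Subtype.val h)
      have hA2 := nhds_mono hle hA
      rw [hsub] at hA2
      obtain ⟨U, hU, hUA⟩ := hA2
      refine ⟨_, hb.mem_of_mem (hmem.2 ⟨U, hU, A, hA, rfl⟩), ?_⟩
      rintro ⟨u, hu, _, ⟨a, ha, rfl⟩, hua⟩
      change u * a = x at hua
      have hu' : u ∈ Z := by
        have : u = x * (a⁻¹ : Z) := by rw [← hua]; simp
        rw [this]
        exact Z.mul_mem hxZ (a⁻¹).2
      exact hxA ⟨⟨u, hu'⟩, hUA hu, a, ha, Subtype.ext hua⟩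
    · have hU := hopen x hxZ
      refine ⟨_, hb.mem_of_mem (hmem.2 ⟨_, hU, Set.univ, univ_mem, rfl⟩), ?_⟩
      rintro ⟨u, hu, _, ⟨a, -, rfl⟩, hua⟩
      change u * a = x at hua
      apply hu
      rw [← hua]
      simp
  have hVρ : V ∈ @nhds G ρ 1 := by
    refine mem_of_superset (hb.mem_of_mem (hmem.2 ⟨W, hWn, _, hWσ, rfl⟩)) ?_
    rintro _ ⟨u, hu, _, ⟨a, ha, rfl⟩, rfl⟩
    exact hWV ⟨u, hu, a, ha, rfl⟩
  have heq : ρ = τ := hmin ρ hρ hT2 hle1 hVρ
  refine le_antisymm ?_ hle
  refine le_of_one σ _ hσ inferInstance ?_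
  intro N hN
  rw [hsub] at hN
  obtain ⟨U, hU, hUN⟩ := hN
  have hU' : U ∈ @nhds G ρ 1 := by
    rw [heq]
    exact hU
  obtain ⟨S, hS, hSU⟩ := hb.mem_iff.1 hU'
  obtain ⟨U1, hU1, A, hA, rfl⟩ := hmem.1 hS
  refine mem_of_superset hA fun a ha => hUN (hSU ⟨1, @mem_of_mem_nhds G τ 1 U1 hU1, a, ⟨a, ha, rfl⟩, one_mul _⟩)

/-- The tightness of a topological group is at most its character. -/
theorem tight_of_char {G : Type} [Group G] [TopologicalSpace G] [IsTopologicalGroup G]
    {κ : Cardinal.{0}} (h : CharLe κ (1 : G)) : TightLe κ G := by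
  obtain ⟨𝓑, hB, hc⟩ := h
  intro A x hx
  have h1 : ∀ s : 𝓑, ∃ a ∈ A, x⁻¹ * a ∈ s.1 := by
    intro s
    have h2 : s.1 ∈ 𝓝 (1 : G) := hB.mem_of_mem s.2
    have h3 : (fun y => x⁻¹ * y) ⁻¹' s.1 ∈ 𝓝 x := by
      have h4 : Continuous fun y : G => x⁻¹ * y := by fun_prop
      refine h4.continuousAt.preimage_mem_nhds ?_
      simpa using h2
    obtain ⟨a, ha1, ha2⟩ := mem_closure_iff_nhds.1 hx _ h3
    exact ⟨a, ha2, ha1⟩
  choose a ha hs using h1
  refine ⟨Set.range a, Set.range_subset_iff.2 ha, Cardinal.mk_range_le.trans hc, ?_⟩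
  rw [mem_closure_iff_nhds]
  intro N hN
  have h2 : (fun y => x * y) ⁻¹' N ∈ 𝓝 (1 : G) := by
    have h4 : Continuous fun y : G => x * y := by fun_prop
    refine h4.continuousAt.preimage_mem_nhds ?_
    simpa using hN
  obtain ⟨s, hs1, hs2⟩ := hB.mem_iff.1 h2
  refine ⟨a ⟨s, hs1⟩, ?_, ⟨_, rfl⟩⟩
  have h3 := hs2 (hs ⟨s, hs1⟩)
  simpa using h3

/-- The character is at most `κ` if this holds for a subgroup and for the quotient. -/
theorem three_space {G : Type} [Group G] [TopologicalSpace G] [IsTopologicalGroup G]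
    {κ : Cardinal.{0}} (hκ : ℵ₀ ≤ κ) (N : Subgroup G) (h1 : CharLe κ (1 : N))
    (h2 : CharLe κ ((1 : G) : G ⧸ N)) : CharLe κ (1 : G) := by
  obtain ⟨𝓑, hB, hBc⟩ := h1
  obtain ⟨𝓒, hC, hCc⟩ := h2
  have hW : ∀ B : 𝓑, ∃ W ∈ 𝓝 (1 : G), ∀ x ∈ W, ∀ y ∈ W, ∀ h : x⁻¹ * y ∈ N,
      (⟨x⁻¹ * y, h⟩ : N) ∈ B.1 := by
    intro B
    have h3 : B.1 ∈ 𝓝 (1 : N) := hB.mem_of_mem B.2
    rw [nhds_induced] at h3
    obtain ⟨V, hV, hVB⟩ := h3
    have h4 : Tendsto (fun p : G × G => p.1⁻¹ * p.2) (𝓝 (1 : G) ×ˢ 𝓝 (1 : G)) (𝓝 1) := by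
      have h5 : Continuous fun p : G × G => p.1⁻¹ * p.2 := by fun_prop
      have h6 := h5.tendsto ((1 : G), (1 : G))
      rw [nhds_prod_eq] at h6
      simpa using h6
    obtain ⟨W, hW, hWV⟩ := mem_prod_same_iff.1 (h4 hV)
    exact ⟨W, hW, fun x hx y hy h => hVB (hWV (Set.mk_mem_prod hx hy))⟩
  choose W hWn hWB using hW
  refine ⟨Set.range fun p : 𝓑 × 𝓒 => W p.1 ∩ (QuotientGroup.mk ⁻¹' p.2.1), ⟨fun O => ⟨?_, ?_⟩⟩, ?_⟩
  · intro hO
    obtain ⟨P, hP, hP1, hPO⟩ := exists_open_nhds_one_mul_subset hO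
    have h3 : (Subtype.val ⁻¹' P : Set N) ∈ 𝓝 (1 : N) :=
      (hP.preimage continuous_subtype_val).mem_nhds hP1
    obtain ⟨B, hB1, hB2⟩ := hB.mem_iff.1 h3
    have h4 : (QuotientGroup.mk '' (P ∩ W ⟨B, hB1⟩) : Set (G ⧸ N)) ∈ 𝓝 ((1 : G) : G ⧸ N) :=
      QuotientGroup.isOpenMap_coe.image_mem_nhds (inter_mem (hP.mem_nhds hP1) (hWn _))
    obtain ⟨C, hC1, hC2⟩ := hC.mem_iff.1 h4
    refine ⟨_, ⟨(⟨B, hB1⟩, ⟨C, hC1⟩), rfl⟩, ?_⟩
    rintro x ⟨hx1, hx2⟩
    obtain ⟨q, ⟨hq1, hq2⟩, hq3⟩ := hC2 hx2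
    have h5 : q⁻¹ * x ∈ N := QuotientGroup.eq.1 hq3
    have h6 : q⁻¹ * x ∈ P := hB2 (hWB _ q hq2 x hx1 h5)
    exact hPO ⟨q, hq1, q⁻¹ * x, h6, by simp⟩
  · rintro ⟨_, ⟨⟨B, C⟩, rfl⟩, hs⟩
    refine mem_of_superset (inter_mem (hWn B) ?_) hs
    exact QuotientGroup.continuous_mk.continuousAt.preimage_mem_nhds (hC.mem_of_mem C.2)
  · refine Cardinal.mk_range_le.trans ?_
    rw [Cardinal.mk_prod]
    simp only [Cardinal.lift_id]
    exact (mul_le_mul' hBc hCc).trans (Cardinal.mul_eq_self hκ).le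

/-- countable character and first countability -/
theorem char_of_first {X : Type} [TopologicalSpace X] (x : X) [(𝓝 x).IsCountablyGenerated] :
    CharLe ℵ₀ x := by
  obtain ⟨f, hf⟩ := (𝓝 x).exists_antitone_basis
  refine ⟨Set.range f, ⟨fun t => ?_⟩, Cardinal.mk_range_le.trans (by simp)⟩
  rw [hf.toHasBasis.mem_iff]
  constructor
  · rintro ⟨i, -, hi⟩
    exact ⟨_, ⟨i, rfl⟩, hi⟩
  · rintro ⟨_, ⟨i, rfl⟩, hi⟩
    exact ⟨i, trivial, hi⟩

theorem metrizable_of_char {G : Type} [Group G] [TopologicalSpace G] [IsTopologicalGroup G]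
    [T2Space G] (h : CharLe ℵ₀ (1 : G)) : TopologicalSpace.MetrizableSpace G := by
  obtain ⟨𝓑, hB, hc⟩ := h
  apply H645.metrizable_of_countable
  have hcount : {s : Set G | s ∈ 𝓑}.Countable := Cardinal.le_aleph0_iff_set_countable.1 hc
  exact (HasCountableBasis.mk hB hcount).isCountablyGenerated

theorem char_central {G : Type} [Group G] [TopologicalSpace G] [IsTopologicalGroup G]
    [T2Space G] (h : LocallyMinimal G) (Z : Subgroup G) (hc : IsClosed (Z : Set G))
    (hz : Z ≤ Subgroup.center G) {κ : Cardinal.{0}} (hκ : ℵ₀ ≤ κ) (hT : TightLe κ Z) :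
    CharLe κ (1 : Z) := by
  have hz' : ∀ z ∈ Z, ∀ g : G, g * z = z * g := fun z hzZ g =>
    Subgroup.mem_center_iff.1 (hz hzZ) g
  let _ : CommGroup Z :=
    { (inferInstance : Group Z) with
      mul_comm := fun a b => Subtype.ext (hz' b b.2 a) }
  exact H645.char_le_mul hκ (locMin_central h Z hc hz') hT

theorem center_closed {G : Type} [Group G] [TopologicalSpace G] [IsTopologicalGroup G]
    [T2Space G] : IsClosed (Subgroup.center G : Set G) := by
  have h1 : (Subgroup.center G : Set G) = ⋂ g : G, {z | g * z = z * g} := by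
    ext z
    simp [Subgroup.mem_center_iff]
  rw [h1]
  exact isClosed_iInter fun g => isClosed_eq (by fun_prop) (by fun_prop)

/-- totally minimal groups are minimal -/
theorem TotallyMinimal.minimal {G : Type} [Group G] [τ : TopologicalSpace G]
    (h : TotallyMinimal G) : Minimal G := by
  intro σ h1 h2 hle
  refine le_antisymm ?_ hle
  have h3 : @IsOpenMap G G τ σ (MonoidHom.id G) :=
    @h G _ σ h1 h2 (MonoidHom.id G) (continuous_id_iff_le.2 hle) Function.surjective_id
  intro U hU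
  have h4 := h3 U hU
  rwa [MonoidHom.coe_id, Set.image_id] at h4

theorem Minimal.locallyMinimal {G : Type} [Group G] [TopologicalSpace G] (h : Minimal G) :
    LocallyMinimal G := ⟨Set.univ, univ_mem, fun σ h1 h2 h3 _ => h σ h1 h2 h3⟩

theorem TotallyMinimal.quot {G : Type} [Group G] [TopologicalSpace G] [IsTopologicalGroup G]
    (h : TotallyMinimal G) (N : Subgroup G) [N.Normal] : TotallyMinimal (G ⧸ N) := by
  intro H _ _ _ _ f hf hs
  have h1 : IsOpenMap (f.comp (QuotientGroup.mk' N)) :=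
    h H _ (hf.comp QuotientGroup.continuous_mk) (hs.comp (QuotientGroup.mk'_surjective N))
  intro U hU
  have h2 := h1 _ (hU.preimage QuotientGroup.continuous_mk)
  have h3 : f '' U = (f.comp (QuotientGroup.mk' N)) '' (QuotientGroup.mk ⁻¹' U) := by
    ext z
    constructor
    · rintro ⟨u, hu, rfl⟩
      obtain ⟨g, rfl⟩ := QuotientGroup.mk_surjective u
      exact ⟨g, hu, rfl⟩
    · rintro ⟨g, hg, rfl⟩
      exact ⟨_, hg, rfl⟩
  rw [h3]
  exact h2

/-- the tightness of a quotient group -/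
theorem tight_quot {G : Type} [Group G] [TopologicalSpace G] [IsTopologicalGroup G]
    {κ : Cardinal.{0}} (N : Subgroup G) (h : TightLe κ G) : TightLe κ (G ⧸ N) := by
  intro A y hy
  obtain ⟨x, rfl⟩ := QuotientGroup.mk_surjective y
  have h1 : x ∈ closure (QuotientGroup.mk ⁻¹' A : Set G) := by
    rw [← QuotientGroup.isOpenMap_coe.preimage_closure_eq_closure_preimage
      QuotientGroup.continuous_mk]
    exact hy
  obtain ⟨C, hC1, hC2, hC3⟩ := h _ x h1
  refine ⟨QuotientGroup.mk '' C, Set.image_subset_iff.2 hC1, Cardinal.mk_image_le.trans hC2, ?_⟩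
  exact image_closure_subset_closure_image QuotientGroup.continuous_mk ⟨x, hC3, rfl⟩

/-- The tightness of a totally minimal nilpotent group is equal to its character. -/
theorem char_nilpotent (G : Type) [Group G] [Group.IsNilpotent G] {κ : Cardinal.{0}} (hκ : ℵ₀ ≤ κ) :
    ∀ [TopologicalSpace G] [IsTopologicalGroup G] [T2Space G], TotallyMinimal G → TightLe κ G →
      CharLe κ (1 : G) := by
  refine Group.nilpotent_center_quotient_ind (P := fun G _ _ => ∀ [TopologicalSpace G]
    [IsTopologicalGroup G] [T2Space G], TotallyMinimal G → TightLe κ G → CharLe κ (1 : G)) G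
    ?_ ?_
  · intro G _ _ _ _ _ _ _
    refine ⟨{Set.univ}, ⟨fun t => ?_⟩, ?_⟩
    · constructor
      · intro ht
        refine ⟨Set.univ, rfl, fun x _ => ?_⟩
        rw [Subsingleton.elim x 1]
        exact mem_of_mem_nhds ht
      · rintro ⟨s, rfl, hs⟩
        exact mem_of_superset univ_mem hs
    · rw [Cardinal.mk_singleton]
      exact Cardinal.one_le_aleph0.trans hκ
  · intro G _ _ ih _ _ _ hm hT
    have hc : IsClosed (Subgroup.center G : Set G) := center_closed
    have hZ : TightLe κ (Subgroup.center G) := by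
      intro A x hx
      obtain ⟨B, hB1, hB2, hB3⟩ := hT (Subtype.val '' A) x.1 (by
        rw [closure_subtype] at hx
        exact hx)
      have hBA : B ⊆ Set.range (Subtype.val : Subgroup.center G → G) :=
        hB1.trans (Set.image_subset_range _ _)
      have e1 : Subtype.val '' (Subtype.val ⁻¹' B : Set (Subgroup.center G)) = B := by
        rw [Set.image_preimage_eq_inter_range, Set.inter_eq_left.2 hBA]
      refine ⟨Subtype.val ⁻¹' B, ?_, ?_, ?_⟩
      · intro z hz
        obtain ⟨a, ha, hza⟩ := hB1 hz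
        rwa [← Subtype.ext hza]
      · rw [← Cardinal.mk_image_eq Subtype.val_injective, e1]
        exact hB2
      · rw [closure_subtype, e1]
        exact hB3
    have hQ2 : T2Space (G ⧸ Subgroup.center G) := inferInstance
    exact three_space hκ (Subgroup.center G)
      (char_central hm.minimal.locallyMinimal _ hc le_rfl hκ hZ)
      (ih (hm.quot _) (tight_quot _ hT))

/-- Let `G` be a locally minimal (Hausdorff) group.

(1) Every closed central subgroup `Z` of `G` is locally minimal, its tightness is equal to its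
character, and the character of `G` is at most the maximum of the tightness of `Z` and the character
of `G ⧸ Z`.

(2) If the centre of `G` has countable tightness then it is metrizable, and `G` is metrizable if
`G ⧸ Z(G)` is first countable.

(3) If `G` is abelian then its tightness is equal to its character; so `G` is metrizable if it has
countable tightness.

(4) If `G` is nilpotent and totally minimal then its tightness is equal to its character; so `G` is
metrizable if it has countable tightness.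

(5) There is a minimal (hence locally minimal) group, nilpotent of class two, of countable tightness
which is not sequential (hence neither Fréchet–Urysohn nor metrizable). -/
theorem result :
    (∀ (G : Type) [Group G] [TopologicalSpace G] [IsTopologicalGroup G] [T2Space G],
      LocallyMinimal G → ∀ Z : Subgroup G, IsClosed (Z : Set G) → Z ≤ Subgroup.center G →
        LocallyMinimal Z ∧ ∀ κ : Cardinal.{0}, ℵ₀ ≤ κ →
          (TightLe κ Z ↔ CharLe κ (1 : Z)) ∧
          (TightLe κ Z → CharLe κ ((1 : G) : G ⧸ Z) → CharLe κ (1 : G))) ∧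
    (∀ (G : Type) [Group G] [TopologicalSpace G] [IsTopologicalGroup G] [T2Space G],
      LocallyMinimal G → TightLe ℵ₀ (Subgroup.center G) →
        TopologicalSpace.MetrizableSpace (Subgroup.center G) ∧
        (FirstCountableTopology (G ⧸ Subgroup.center G) → TopologicalSpace.MetrizableSpace G)) ∧
    (∀ (G : Type) [CommGroup G] [TopologicalSpace G] [IsTopologicalGroup G] [T2Space G],
      LocallyMinimal G → (∀ κ : Cardinal.{0}, ℵ₀ ≤ κ → (TightLe κ G ↔ CharLe κ (1 : G))) ∧
        (TightLe ℵ₀ G → TopologicalSpace.MetrizableSpace G)) ∧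
    (∀ (G : Type) [Group G] [Group.IsNilpotent G] [TopologicalSpace G] [IsTopologicalGroup G]
      [T2Space G], TotallyMinimal G →
        (∀ κ : Cardinal.{0}, ℵ₀ ≤ κ → (TightLe κ G ↔ CharLe κ (1 : G))) ∧
        (TightLe ℵ₀ G → TopologicalSpace.MetrizableSpace G)) ∧
    (∃ (H : Type) (_ : Group H) (_ : TopologicalSpace H) (_ : IsTopologicalGroup H)
      (_ : T2Space H),
      (∀ x y z : H, (x * y * x⁻¹ * y⁻¹) * z = z * (x * y * x⁻¹ * y⁻¹)) ∧
      Minimal H ∧ LocallyMinimal H ∧ TightLe ℵ₀ H ∧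
      ¬ SequentialSpace H ∧ ¬ FrechetUrysohnSpace H ∧ ¬ TopologicalSpace.MetrizableSpace H) := by
  refine ⟨?_, ?_, ?_, ?_, ?_⟩
  · intro G _ _ _ _ h Z hc hz
    refine ⟨locMin_central h Z hc fun z hzZ g => Subgroup.mem_center_iff.1 (hz hzZ) g,
      fun κ hκ => ⟨⟨char_central h Z hc hz hκ, tight_of_char⟩, fun hT hQ =>
        three_space hκ Z (char_central h Z hc hz hκ hT) hQ⟩⟩
  · intro G _ _ _ _ h hT
    have h1 := char_central h (Subgroup.center G) center_closed le_rfl le_rfl hT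
    refine ⟨metrizable_of_char h1, fun hF => metrizable_of_char ?_⟩
    exact three_space le_rfl _ h1 (char_of_first _)
  · intro G _ _ _ _ h
    exact ⟨fun κ hκ => ⟨fun hT => H645.char_le_mul hκ h hT, tight_of_char⟩,
      fun hT => metrizable_of_char (H645.char_le_mul le_rfl h hT)⟩
  · intro G _ _ _ _ _ h
    exact ⟨fun κ hκ => ⟨fun hT => char_nilpotent G hκ h hT, tight_of_char⟩,
      fun hT => metrizable_of_char (char_nilpotent G le_rfl h hT)⟩
  · refine ⟨H645.Heis.HH, inferInstance, inferInstance, inferInstance, inferInstance, ?_, ?_, ?_,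
      ?_, ?_, ?_, ?_⟩
    · intro x y z
      rw [H645.Heis.HH.comm_eq]
      ext
      · simp [add_comm]
      · simp
      · simp
    · intro σ h1 h2 h3
      exact H645.Heis.minimal σ h1 h2 h3
    · exact ⟨Set.univ, univ_mem, fun σ h1 h2 h3 _ => H645.Heis.minimal σ h1 h2 h3⟩
    · intro A x hx
      obtain ⟨B, h1, h2, h3⟩ := H645.Heis.tight A x hx
      exact ⟨B, h1, Cardinal.le_aleph0_iff_set_countable.2 h2, h3⟩
    · exact H645.Heis.not_sequential
    · intro h
      exact H645.Heis.not_sequential inferInstance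
    · intro h
      exact H645.Heis.not_sequential inferInstance

end Pool.Agent.Results.MP_335999_gt.CentralSubgroups
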